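import Pool.Agent.H211R2.MC.Rep

set_option autoImplicit false

/-! Binary matroids: closure and span, parity of circuits and cocircuits, duality. -/

namespace Pool.Agent.T6.H84.Royle

open Set Matroid H211.MC

variable {α : Type*}

section field

variable {K : Type*} [Field K] {V : Type*} [AddCommGroup V] [Module K V] {M : Matroid α} {v : α → V}

lemma mem_closure_indep (hv : RepBy K M v) {I : Set α} (hI : M.Indep I) {e : α} (he : e ∈ M.E) :
    e ∈ M.closure I ↔ v e ∈ Submodule.span K (v '' I) := by
  by_cases heI : e ∈ I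
  · exact ⟨fun _ => Submodule.subset_span ⟨e, heI, rfl⟩,
      fun _ => M.mem_closure_of_mem heI hI.subset_ground⟩
  · rw [← not_iff_not, hI.notMem_closure_iff_of_notMem heI he,
      hv _ (insert_subset he hI.subset_ground), linearIndepOn_insert heI]
    exact ⟨fun h => h.2, fun h => ⟨(hv _ hI.subset_ground).1 hI, h⟩⟩

lemma span_basis (hv : RepBy K M v) {I X : Set α} (hX : X ⊆ M.E) (hI : M.IsBasis I X) :
    Submodule.span K (v '' I) = Submodule.span K (v '' X) := by
  apply le_antisymm (Submodule.span_mono (image_mono hI.subset))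
  rw [Submodule.span_le]
  rintro _ ⟨x, hx, rfl⟩
  exact (mem_closure_indep hv hI.indep (hX hx)).1 (hI.subset_closure hx)

lemma mem_closure_iff (hv : RepBy K M v) {X : Set α} (hX : X ⊆ M.E) {e : α} (he : e ∈ M.E) :
    e ∈ M.closure X ↔ v e ∈ Submodule.span K (v '' X) := by
  obtain ⟨I, hI⟩ := M.exists_isBasis X
  rw [← hI.closure_eq_closure, mem_closure_indep hv hI.indep he, span_basis hv hX hI]

lemma spanning_iff_span (hv : RepBy K M v) {X : Set α} (hX : X ⊆ M.E) :
    M.Spanning X ↔ ∀ e ∈ M.E, v e ∈ Submodule.span K (v '' X) := by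
  rw [Matroid.spanning_iff_ground_subset_closure hX]
  exact ⟨fun h e he => (mem_closure_iff hv hX he).1 (h he),
    fun h e he => (mem_closure_iff hv hX he).2 (h e he)⟩

end field

section parity

variable {V : Type*} [AddCommGroup V] [Module (ZMod 2) V] {M : Matroid α} {v : α → V}

lemma circuit_sum (hv : RepBy (ZMod 2) M v) {C : Set α} (hC : M.IsCircuit C) (hfin : C.Finite) :
    ∑ e ∈ hfin.toFinset, v e = 0 := by
  classical
  have hdep : ¬ LinearIndepOn (ZMod 2) v C := by
    rw [← hv _ hC.subset_ground]; exact hC.not_indep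
  rw [linearIndepOn_iff'] at hdep
  push Not at hdep
  obtain ⟨S, g, hS, hsum, i, hi, hgi⟩ := hdep
  set T : Finset α := S.filter (fun i => g i ≠ 0) with hT
  have hTC : (↑T : Set α) ⊆ C := by
    intro x hx
    rw [hT, Finset.mem_coe, Finset.mem_filter] at hx
    exact hS hx.1
  have hTs : ∑ e ∈ T, v e = 0 := by
    have h1 : ∑ e ∈ T, v e = ∑ e ∈ T, g e • v e := by
      apply Finset.sum_congr rfl
      intro x hx
      rw [hT, Finset.mem_filter] at hx
      rw [(zmod2 (g x)).resolve_left hx.2, one_smul]
    rw [h1, hT, Finset.sum_filter_of_ne, hsum]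
    intro x _ hne h0
    exact hne (by rw [h0, zero_smul])
  have hTC' : (↑T : Set α) = C := by
    by_contra hne
    have hI : M.Indep ↑T := hC.ssubset_indep (hTC.ssubset_of_ne hne)
    rw [hv _ (hTC.trans hC.subset_ground), linearIndepOn_iff'] at hI
    have h2 := hI T (fun _ => 1) subset_rfl (by simpa using hTs) i (by
      rw [hT, Finset.mem_filter]; exact ⟨hi, hgi⟩)
    exact one_ne_zero h2
  have : hfin.toFinset = T := by
    ext x
    rw [Set.Finite.mem_toFinset, ← hTC', Finset.mem_coe]
  rw [this, hTs]

/-- In a binary matroid a circuit and a cocircuit meet in an even number of elements. -/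
lemma even_inter (hv : RepBy (ZMod 2) M v) [M.Finite] {C D : Set α} (hC : M.IsCircuit C)
    (hD : M.IsCocircuit D) : Even (C ∩ D).ncard := by
  classical
  have hfin : C.Finite := M.ground_finite.subset hC.subset_ground
  have hDE := hD.subset_ground
  obtain ⟨hcl, hr⟩ := hyper_of_cocircuit M hD
  set H := M.E \ D with hH
  have hHE : H ⊆ M.E := sdiff_subset
  set W := Submodule.span (ZMod 2) (v '' H) with hW
  obtain ⟨d, hd⟩ := hD.nonempty
  have hout : ∀ e ∈ D, v e ∉ W := by
    intro e he h
    rw [hW, ← mem_closure_iff hv hHE (hDE he), hcl] at h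
    exact h.2 he
  have hspan : ∀ e ∈ M.E, v e ∈ Submodule.span (ZMod 2) (v '' (insert d H)) := by
    rw [← spanning_iff_span hv (insert_subset (hDE hd) hHE),
      spanning_iff_rk M (insert_subset (hDE hd) hHE),
      rk_insert_of_notMem M (hDE hd) (by rw [hcl]; exact fun h => h.2 hd)]
    omega
  set q : V ⧸ W := W.mkQ (v d) with hq
  have hqD : ∀ e ∈ D, W.mkQ (v e) = q := by
    intro e he
    have h1 := hspan e (hDE he)
    rw [image_insert_eq, Submodule.mem_span_insert] at h1
    obtain ⟨a, z, hz, haz⟩ := h1
    rcases zmod2 a with rfl | rfl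
    · rw [zero_smul, zero_add] at haz
      refine absurd ?_ (hout e he)
      rw [haz]; exact hz
    · rw [one_smul] at haz
      rw [haz, map_add, hq, (Submodule.Quotient.mk_eq_zero W (x := z)).2 hz |> fun h => (show W.mkQ z = 0 from h),
        add_zero]
  have hq0 : q ≠ 0 := by
    intro h
    apply hout d hd
    exact (Submodule.Quotient.mk_eq_zero W).1 h
  have hqH : ∀ e ∈ H, W.mkQ (v e) = 0 := by
    intro e he
    exact (Submodule.Quotient.mk_eq_zero W).2 (Submodule.subset_span ⟨e, he, rfl⟩)
  have hsum := circuit_sum hv hC hfin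
  have h2 : ∑ e ∈ hfin.toFinset, W.mkQ (v e) = 0 := by
    rw [← map_sum, hsum, map_zero]
  have h3 : ∑ e ∈ hfin.toFinset, W.mkQ (v e) = ((C ∩ D).ncard : ZMod 2) • q := by
    have h4 : ∀ e ∈ hfin.toFinset, W.mkQ (v e) = if e ∈ D then q else 0 := by
      intro e he
      rw [Set.Finite.mem_toFinset] at he
      split_ifs with heD
      · exact hqD e heD
      · exact hqH e ⟨hC.subset_ground he, heD⟩
    rw [Finset.sum_congr rfl h4, ← Finset.sum_filter, Finset.sum_const]
    have h5 : (C ∩ D).ncard = (hfin.toFinset.filter (fun e => e ∈ D)).card := by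
      rw [← ncard_coe_finset]
      congr 1
      ext x
      simp
    rw [h5, Nat.cast_smul_eq_nsmul]
  rw [h3] at h2
  have h6 : ((C ∩ D).ncard : ZMod 2) = 0 := by
    rcases zmod2 ((C ∩ D).ncard : ZMod 2) with h | h
    · exact h
    · rw [h, one_smul] at h2
      exact absurd h2 hq0
  rw [even_iff_two_dvd]
  exact (ZMod.natCast_eq_zero_iff _ 2).1 h6

end parity

section dual

variable {K : Type*} [Field K]

/-- The dual of a representable finite matroid is representable. -/
lemma dual_rep {M : Matroid α} (hfin : M.Finite) (h : Representable K M) :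
    Representable K M✶ := by
  classical
  obtain ⟨n, v, hv⟩ := h
  have hv' : RepBy K M v := hv
  haveI : Fintype M.E := hfin.ground_finite.fintype
  let V := Fin n → K
  let T : Module.Dual K V →ₗ[K] (M.E → K) := LinearMap.pi (fun i => LinearMap.applyₗ (v i))
  have hT : ∀ (f : Module.Dual K V) (i : M.E), T f i = f (v i) := fun _ _ => rfl
  let R : Submodule K (M.E → K) := LinearMap.range T
  let φ0 : α → ((M.E → K) ⧸ R) := fun i =>
    if hi : i ∈ M.E then R.mkQ (Pi.single ⟨i, hi⟩ 1) else 0
  have hφ : ∀ i : M.E, φ0 i = R.mkQ (Pi.single i 1) := by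
    intro i
    simp only [φ0, i.2, dif_pos, Subtype.coe_eta]
  have hsum : ∀ c : M.E → K, ∑ i, c i • φ0 i = R.mkQ c := by
    intro c
    have : c = ∑ i, c i • (Pi.single i 1 : M.E → K) := by
      ext j
      simp [Finset.sum_apply, Pi.single_apply]
    conv_rhs => rw [this, map_sum]
    simp only [hφ, map_smul]
  have key : ∀ I ⊆ M.E, (M✶.Indep I ↔ LinearIndepOn K φ0 I) := by
    intro I hI
    have h1 : M✶.Indep I ↔ M.Spanning (M.E \ I) := by
      rw [← Matroid.coindep_def, Matroid.coindep_iff_compl_spanning hI]
    rw [h1, spanning_iff_span hv' sdiff_subset, ← not_iff_not, linearIndepOn_iff']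
    push Not
    constructor
    · rintro ⟨e, he, hne⟩
      obtain ⟨f, hf1, hf2⟩ := Submodule.exists_le_ker_of_notMem hne
      refine ⟨(Finset.univ.filter (fun i : M.E => f (v i) ≠ 0)).map (Function.Embedding.subtype _),
        fun i => f (v i), ?_, ?_, e, ?_, hf1⟩
      · intro i hi
        simp only [Finset.coe_map, Function.Embedding.subtype_apply, mem_image,
          Finset.mem_coe, Finset.mem_filter, Finset.mem_univ, true_and] at hi
        obtain ⟨j, hj, rfl⟩ := hi
        by_contra hcon
        apply hj
        exact hf2 (Submodule.subset_span ⟨j, ⟨j.2, hcon⟩, rfl⟩)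
      · rw [Finset.sum_map]
        simp only [Function.Embedding.subtype_apply]
        rw [Finset.sum_filter_of_ne]
        · rw [hsum (fun i : M.E => f (v i))]
          simp only [Submodule.mkQ_apply, Submodule.Quotient.mk_eq_zero]
          exact ⟨f, rfl⟩
        · intro i _ hi h0
          exact hi (by rw [h0, zero_smul])
      · simp only [Finset.mem_map, Finset.mem_filter, Finset.mem_univ, true_and,
          Function.Embedding.subtype_apply]
        exact ⟨⟨e, he⟩, hf1, rfl⟩
    · rintro ⟨S, g, hS, h0, i, hi, hgi⟩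
      have hiE : i ∈ M.E := hI (hS hi)
      let c : M.E → K := fun j => if (j : α) ∈ S then g j else 0
      have hc : R.mkQ c = 0 := by
        rw [← hsum, ← h0]
        have e1 : ∑ j : M.E, c j • φ0 j = ∑ j : M.E, if (j : α) ∈ S then g j • φ0 j else 0 := by
          apply Finset.sum_congr rfl
          intro j _
          simp only [c]
          split_ifs
          · rfl
          · rw [zero_smul]
        rw [e1, ← Finset.sum_filter]
        have e2 : S = (Finset.univ.filter (fun j : M.E => (j : α) ∈ S)).map
            (Function.Embedding.subtype _) := by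
          ext x
          simp only [Finset.mem_map, Finset.mem_filter, Finset.mem_univ, true_and,
            Function.Embedding.subtype_apply, Subtype.exists, exists_and_left,
            exists_prop, exists_eq_right_right]
          exact ⟨fun h => ⟨h, hI (hS h)⟩, fun h => h.1⟩
        conv_rhs => rw [e2]
        rw [Finset.sum_map]
        rfl
      simp only [Submodule.mkQ_apply, Submodule.Quotient.mk_eq_zero] at hc
      obtain ⟨f, hf⟩ := hc
      refine ⟨i, hiE, fun hmem => hgi ?_⟩
      have h3 : f (v i) = g i := by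
        have := congrFun hf ⟨i, hiE⟩
        rw [hT] at this
        simpa [c, hi] using this
      rw [← h3]
      have hker : Submodule.span K (v '' (M.E \ I)) ≤ LinearMap.ker f := by
        rw [Submodule.span_le]
        rintro _ ⟨j, hj, rfl⟩
        have := congrFun hf ⟨j, hj.1⟩
        rw [hT] at this
        have hjS : j ∉ S := fun h => hj.2 (hS h)
        simpa [c, hjS] using this
      exact hker hmem
  haveI : Module.Finite K ((M.E → K) ⧸ R) := inferInstance
  let e : ((M.E → K) ⧸ R) ≃ₗ[K] (Fin (Module.finrank K ((M.E → K) ⧸ R)) → K) :=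
    (Module.finBasis K ((M.E → K) ⧸ R)).equivFun
  refine ⟨Module.finrank K ((M.E → K) ⧸ R), fun i => e (φ0 i), fun I hI => ?_⟩
  rw [key I hI]
  exact (LinearMap.linearIndependent_iff (e : ((M.E → K) ⧸ R) →ₗ[K] _) (v := fun x : I => φ0 x)
    (by exact LinearEquiv.ker e)).symm

end dual

end Pool.Agent.T6.H84.Royle
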