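import Pool.Agent.T6.H84.Royle.FanoMinor

set_option autoImplicit false

/-! The strict inequality for binary matroids without seven point minors. -/

namespace Pool.Agent.T6.H84.Royle

open Set Matroid H211.MC

universe u

variable {α : Type u} {M : Matroid α}

/-- 3-connectedness in Tutte's sense -/
def TC (M : Matroid α) : Prop :=
  ∀ X : Set α, X ⊆ M.E → ∀ k : ℕ, 1 ≤ k → k < 3 →
    (k : ℕ∞) ≤ X.encard → (k : ℕ∞) ≤ (M.E \ X).encard →
    M.eRank + (k : ℕ∞) ≤ M.eRk X + M.eRk (M.E \ X)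

lemma tc_iff [M.Finite] : TC M ↔ ∀ X ⊆ M.E, ∀ k : ℕ, 1 ≤ k → k < 3 → k ≤ X.ncard →
    k ≤ (M.E \ X).ncard → rk M M.E + k ≤ rk M X + rk M (M.E \ X) := by
  have hfin : M.E.Finite := M.ground_finite
  have key : ∀ X ⊆ M.E, ∀ k : ℕ, ((k : ℕ∞) ≤ X.encard ↔ k ≤ X.ncard) := by
    intro X hX k
    rw [← (hfin.subset hX).cast_ncard_eq]
    exact_mod_cast Iff.rfl
  have key2 : ∀ X ⊆ M.E, ∀ k : ℕ, (M.eRank + (k : ℕ∞) ≤ M.eRk X + M.eRk (M.E \ X) ↔
      rk M M.E + k ≤ rk M X + rk M (M.E \ X)) := by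
    intro X hX k
    rw [Matroid.eRank_def, ← cast_rk, ← cast_rk, ← cast_rk]
    exact_mod_cast Iff.rfl
  constructor
  · intro h X hX k h1 h3 hk1 hk2
    exact (key2 X hX k).1 (h X hX k h1 h3 ((key X hX k).2 hk1) ((key _ sdiff_subset k).2 hk2))
  · intro h X hX k h1 h3 hk1 hk2
    exact (key2 X hX k).2 (h X hX k h1 h3 ((key X hX k).1 hk1) ((key _ sdiff_subset k).1 hk2))

lemma rk_dual [M.Finite] {X : Set α} (hX : X ⊆ M.E) :
    rk M✶ X + rk M M.E = rk M (M.E \ X) + X.ncard := by
  have h1 := M.eRk_dual_add_eRank X hX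
  have hfin : X.Finite := M.ground_finite.subset hX
  rw [Matroid.eRank_def, ← cast_rk, ← cast_rk, ← cast_rk, ← hfin.cast_ncard_eq] at h1
  exact_mod_cast h1

lemma tc_dual [M.Finite] (h : TC M) : TC M✶ := by
  rw [tc_iff] at h ⊢
  intro X hX k h1 h3 hk1 hk2
  have hX' : X ⊆ M.E := hX
  have hfin : M.E.Finite := M.ground_finite
  change rk M✶ M.E + k ≤ rk M✶ X + rk M✶ (M.E \ X)
  have e1 := rk_dual (M := M) hX'
  have e2 := rk_dual (M := M) (X := M.E \ X) sdiff_subset
  have e3 := rk_dual (M := M) (X := M.E) subset_rfl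
  rw [sdiff_sdiff_cancel_left hX'] at e2
  rw [sdiff_self, rk_empty] at e3
  have e4 := h X hX' k h1 h3 hk1 hk2
  have e5 : (M.E \ X).ncard + X.ncard = M.E.ncard := ncard_sdiff_add_ncard_of_subset hX' hfin
  omega

section conn

variable [M.Finite] (h4 : 4 ≤ M.E.ncard) (h3 : TC M)

include h4 h3

lemma tc_rk_pair {e f : α} (he : e ∈ M.E) (hf : f ∈ M.E) (hef : e ≠ f) :
    2 ≤ rk M {e, f} ∧ rk M M.E ≤ rk M (M.E \ {e, f}) := by
  have hfin : M.E.Finite := M.ground_finite
  have hsub : ({e, f} : Set α) ⊆ M.E := by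
    intro z hz
    rcases hz with rfl | hz
    · exact he
    · rw [mem_singleton_iff.1 hz]; exact hf
  have e1 : (M.E \ {e, f}).ncard + ({e, f} : Set α).ncard = M.E.ncard :=
    ncard_sdiff_add_ncard_of_subset hsub hfin
  have e2 := ncard_pair hef
  have e3 := tc_iff.1 h3 _ hsub 2 (by omega) (by omega) (by omega) (by omega)
  have e4 := rk_le_ground M (M.E \ {e, f})
  have e5 := rk_le_ncard M (I := {e, f}) (by simp)
  omega

lemma tc_rk_singleton {e : α} (he : e ∈ M.E) : rk M {e} = 1 := by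
  have hfin : M.E.Finite := M.ground_finite
  have hsub : ({e} : Set α) ⊆ M.E := by simpa using he
  have e1 : (M.E \ {e}).ncard + ({e} : Set α).ncard = M.E.ncard :=
    ncard_sdiff_add_ncard_of_subset hsub hfin
  have e2 := ncard_singleton e
  have e3 := tc_iff.1 h3 _ hsub 1 (by omega) (by omega) (by omega) (by omega)
  have e4 := rk_le_ground M (M.E \ {e})
  have e5 := rk_le_ncard M (I := {e}) (by simp)
  omega

lemma good_of_tc : Good M where
  fin := inferInstance
  ne := by
    rw [nonempty_iff_ne_empty]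
    intro h
    rw [h] at h4
    simp at h4
  ll := fun _ he => tc_rk_singleton h4 h3 he
  conn := by
    intro A hA hA1 hA2
    have hfin : M.E.Finite := M.ground_finite
    have e1 := (ncard_pos (hfin.subset hA)).2 hA1
    have e2 := (ncard_pos (hfin.subset sdiff_subset)).2 hA2
    have e3 := tc_iff.1 h3 _ hA 1 (by omega) (by omega) (by omega) (by omega)
    omega

lemma good_contract_of_tc {f : α} (hf : f ∈ M.E) : Good (M ／ {f}) := by
  have hfin : M.E.Finite := M.ground_finite
  have hfs : ({f} : Set α) ⊆ M.E := by simpa using hf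
  have hrf := tc_rk_singleton h4 h3 hf
  have hE : (M ／ {f}).E = M.E \ {f} := rfl
  have hrk : ∀ Y ⊆ M.E \ {f}, rk (M ／ {f}) Y + 1 = rk M (Y ∪ {f}) := by
    intro Y hY
    have := rk_contract M hfs hY
    omega
  have hcard : (M.E \ {f}).ncard + 1 = M.E.ncard := by
    have := ncard_sdiff_add_ncard_of_subset hfs hfin
    rwa [ncard_singleton] at this
  refine ⟨inferInstance, ?_, ?_, ?_⟩
  · rw [hE, ← ncard_pos hfin.sdiff]; omega
  · intro e he
    rw [hE] at he
    have hef : e ≠ f := fun h => he.2 h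
    have e1 := hrk {e} (by simpa using he)
    have e2 := tc_rk_pair h4 h3 he.1 hf hef
    have e3 := rk_le_ncard M (I := {e, f}) (by simp)
    rw [ncard_pair hef] at e3
    rw [singleton_union] at e1
    omega
  · intro A hA hA1 hA2
    rw [hE] at hA hA2 ⊢
    set B := (M.E \ {f}) \ A with hB
    have hBE : B ⊆ M.E \ {f} := sdiff_subset
    have a1 := hrk A hA
    have a2 := hrk B hBE
    have a3 := hrk (M.E \ {f}) subset_rfl
    have a4 : M.E \ {f} ∪ {f} = M.E := sdiff_union_of_subset hfs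
    rw [a4] at a3
    have c1 := (ncard_pos (hfin.sdiff.subset hA)).2 hA1
    have c2 := (ncard_pos (hfin.sdiff.subset hBE)).2 hA2
    have c3 : B.ncard + A.ncard = (M.E \ {f}).ncard :=
      ncard_sdiff_add_ncard_of_subset hA hfin.sdiff
    have hfA : f ∉ A := fun h => (hA h).2 rfl
    have hfB : f ∉ B := fun h => (hBE h).2 rfl
    have d1 : M.E \ (A ∪ {f}) = B := by
      ext x
      simp only [hB, mem_sdiff, mem_union, mem_singleton_iff]
      tauto
    have d2 : M.E \ (B ∪ {f}) = A := by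
      ext x
      simp only [hB, mem_sdiff, mem_union, mem_singleton_iff, not_or, not_and, not_not]
      constructor
      · rintro ⟨h1, h2, h3⟩
        exact h2 ⟨h1, h3⟩
      · intro h
        exact ⟨(hA h).1, fun _ => h, (hA h).2⟩
    have n1 : (A ∪ {f}).ncard = A.ncard + 1 := by
      rw [union_singleton, ncard_insert_of_notMem hfA (hfin.sdiff.subset hA)]
    have n2 : (B ∪ {f}).ncard = B.ncard + 1 := by
      rw [union_singleton, ncard_insert_of_notMem hfB (hfin.sdiff.subset hBE)]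
    have s1 : A ∪ {f} ⊆ M.E := union_subset (hA.trans sdiff_subset) hfs
    have s2 : B ∪ {f} ⊆ M.E := union_subset (hBE.trans sdiff_subset) hfs
    have m1 := rk_mono M (subset_union_left : A ⊆ A ∪ {f})
    have m2 := rk_mono M (subset_union_left : B ⊆ B ∪ {f})
    rcases Nat.lt_or_ge B.ncard 2 with hlt | hge
    · have t := tc_iff.1 h3 _ s2 2 (by omega) (by omega) (by omega) (by rw [d2]; omega)
      rw [d2] at t
      omega
    · have t := tc_iff.1 h3 _ s1 2 (by omega) (by omega) (by omega) (by rw [d1]; omega)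
      rw [d1] at t
      omega

lemma exists_circuit_avoid {f g : α} (hf : f ∈ M.E) (hg : g ∈ M.E) (hfg : f ≠ g) :
    ∃ C, M.IsCircuit C ∧ f ∈ C ∧ g ∉ C := by
  have h1 := tc_rk_pair h4 h3 hf hg hfg
  have h2 : f ∈ M.closure (M.E \ {f, g}) := by
    rw [mem_closure_iff_rk M hf]
    have := rk_le_ground M (insert f (M.E \ {f, g}))
    have := rk_mono M (subset_insert f (M.E \ {f, g}))
    omega
  obtain ⟨C, hCs, hC, hfC⟩ := exists_isCircuit_of_mem_closure h2 (fun h => h.2 (by simp))
  refine ⟨C, hC, hfC, fun hgC => ?_⟩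
  rcases hCs hgC with h | h
  · exact hfg h.symm
  · exact h.2 (by simp)

lemma circuit_three {C : Set α} (hC : M.IsCircuit C) : 3 ≤ C.ncard := by
  have hfin : M.E.Finite := M.ground_finite
  have hCf : C.Finite := hfin.subset hC.subset_ground
  have hr := rk_circuit M hC
  by_contra hlt
  have hne := (ncard_pos hCf).2 hC.nonempty
  have h12 : C.ncard = 1 ∨ C.ncard = 2 := by omega
  rcases h12 with h | h
  · obtain ⟨e, rfl⟩ := ncard_eq_one.1 h
    have := tc_rk_singleton h4 h3 (hC.subset_ground rfl)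
    omega
  · obtain ⟨e, f, hef, rfl⟩ := ncard_eq_two.1 h
    have := tc_rk_pair h4 h3 (hC.subset_ground (by simp)) (hC.subset_ground (by simp)) hef
    omega

end conn

/-! ### counting -/

lemma cnt_eq {k : ℕ} (K : Fin k → Set α) (e : α) [∀ i, Decidable (e ∈ K i)] :
    cnt K e = ∑ i, if e ∈ K i then 1 else 0 := by
  unfold cnt
  rw [Finset.sum_boole, ncard_eq_toFinset_card']
  simp

lemma sum_cnt {k : ℕ} (K : Fin k → Set α) (C : Finset α) :
    ∑ e ∈ C, cnt K e = ∑ i, ((C : Set α) ∩ K i).ncard := by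
  classical
  simp only [cnt_eq]
  rw [Finset.sum_comm]
  apply Finset.sum_congr rfl
  intro i _
  rw [Finset.sum_boole, Nat.cast_id, ← ncard_coe_finset]
  congr 1
  ext x
  simp

theorem core (M : Matroid α) [M.Finite] (h4 : 4 ≤ M.E.ncard) (h3 : TC M)
    (hb : Representable (ZMod 2) M) (hN : NoSeven M) (c d : ℕ)
    (hc : ∀ C, M.IsCircuit C → C.ncard ≤ c) (hd : ∀ D, M.IsCocircuit D → D.ncard ≤ d) :
    2 * M.E.ncard < c * d := by
  classical
  obtain ⟨n0, v, hv0⟩ := hb
  have hv : RepBy (ZMod 2) M v := hv0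
  by_contra hcon
  push Not at hcon
  have hfin : M.E.Finite := M.ground_finite
  have hM : Good M := good_of_tc h4 h3
  -- two elements and a circuit
  obtain ⟨e0, he0⟩ := hM.ne
  obtain ⟨f0, hf0, hf0e⟩ := exists_ne_of_one_lt_ncard (s := M.E) (by omega) e0
  obtain ⟨C0, hC0, -, -⟩ := hM.conn.exists_circuit he0 hf0 hf0e.symm
  have hc3 : 3 ≤ c := (circuit_three h4 h3 hC0).trans (hc C0 hC0)
  have hW2 : ∀ C : Set α, C.Finite → W (fun _ => 2) C = 2 * C.ncard := by
    intro C hC
    rw [W_eq _ hC, Finset.sum_const, smul_eq_mul, ← ncard_eq_toFinset_card C hC, mul_comm]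
  obtain ⟨D1, hD1, hD1c⟩ := transversal hM hN (fun _ => 2) (fun _ _ => by norm_num) c (by
    intro C hC
    rw [hW2 C (hfin.subset hC.subset_ground)]
    exact Nat.mul_le_mul_left 2 (hc C hC))
  set w1 := low (fun _ : α => 2) D1 with hw1
  have hw1v : ∀ e, w1 e + (if e ∈ D1 then 1 else 0) = 2 := by
    intro e
    rw [hw1]
    unfold low
    split_ifs <;> rfl
  have hw1c : ∀ C, M.IsCircuit C → W w1 C ≤ 2 * (c - 1) := by
    intro C hC
    have hCf : C.Finite := hfin.subset hC.subset_ground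
    have h1 := hW2 C hCf
    have h2 := hc C hC
    by_cases hheavy : 2 * c ≤ W (fun _ => 2) C + 1
    · obtain ⟨x, hx, y, hy, hxy⟩ := hC.isCocircuit_inter_nontrivial hD1 (hD1c C hC hheavy)
      have b1 := W_low_two (fun _ : α => 2) (D := D1) hCf hx.1 hx.2 (by norm_num) hy.1 hy.2
        (by norm_num) hxy
      rw [← hw1] at b1
      omega
    · have b3 : W w1 C ≤ W (fun _ => 2) C := by
        rw [W_eq _ hCf, W_eq _ hCf]
        exact Finset.sum_le_sum (fun z _ => low_le (fun _ : α => 2) D1 z)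
      omega
  obtain ⟨f, hf⟩ := hD1.nonempty
  have hfE : f ∈ M.E := hD1.subset_ground hf
  have hG := good_contract_of_tc h4 h3 hfE
  obtain ⟨K, hK, hKc⟩ := cover _ (M ／ {f}) hG (hN.contract hfE) w1 (c - 1) rfl (by
      intro e _
      have := hw1v e
      omega) (by
      intro C hC
      obtain ⟨C', hC', hCC', _⟩ := circuit_lift_contract hC
      exact (W_mono w1 (hfin.subset hC'.subset_ground) hCC').trans (hw1c C' hC'))
  have hKM : ∀ i, M.IsCocircuit (K i) := fun i => (hK i).of_contract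
  have hKf : ∀ i, f ∉ K i := fun i h => ((hK i).subset_ground h).2 rfl
  have hKE : ∀ i, K i ⊆ M.E \ {f} := fun i => (hK i).subset_ground
  set E' : Finset α := (hfin.sdiff (t := {f})).toFinset with hE'
  have hE'c : (↑E' : Set α) = M.E \ {f} := by rw [hE']; simp
  have memE' : ∀ e, e ∈ E' ↔ e ∈ M.E ∧ e ≠ f := by
    intro e
    rw [hE', Set.Finite.mem_toFinset]
    simp
  -- upper bound for the total of the counts
  have htot : ∑ e ∈ E', cnt K e ≤ (c - 1) * d := by
    rw [sum_cnt]
    calc ∑ i, ((↑E' : Set α) ∩ K i).ncard ≤ ∑ _i : Fin (c - 1), d := by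
          apply Finset.sum_le_sum
          intro i _
          exact (ncard_le_ncard inter_subset_right
            (hfin.subset (hKM i).subset_ground)).trans (hd _ (hKM i))
      _ = (c - 1) * d := by simp
  -- lower bound for the total of the weights
  have hE'n : E'.card + 1 = M.E.ncard := by
    have h1 : E'.card = (M.E \ {f}).ncard := by rw [← hE'c, ncard_coe_finset]
    rw [h1]
    exact ncard_sdiff_singleton_add_one hfE hfin
  have hD1f : (D1 \ {f}).ncard + 1 = D1.ncard :=
    ncard_sdiff_singleton_add_one hf (hfin.subset hD1.subset_ground)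
  have hwsum : ∑ e ∈ E', w1 e + (D1 \ {f}).ncard = 2 * E'.card := by
    have h1 : ∑ e ∈ E', (w1 e + (if e ∈ D1 then 1 else 0)) = ∑ _e ∈ E', 2 :=
      Finset.sum_congr rfl (fun e _ => hw1v e)
    rw [Finset.sum_add_distrib, Finset.sum_const, smul_eq_mul, Finset.sum_boole, Nat.cast_id] at h1
    have h2 : (D1 \ {f}).ncard = (E'.filter (fun e => e ∈ D1)).card := by
      rw [← ncard_coe_finset]
      congr 1
      ext x
      simp only [mem_sdiff, mem_singleton_iff, Finset.coe_filter, Set.mem_ofPred_eq, memE']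
      constructor
      · rintro ⟨hx, hxf⟩
        exact ⟨⟨hD1.subset_ground hx, hxf⟩, hx⟩
      · rintro ⟨⟨_, hxf⟩, hx⟩
        exact ⟨hx, hxf⟩
    rw [h2]
    omega
  have hD1d := hd D1 hD1
  have hexcess : ∑ e ∈ E', cnt K e ≤ ∑ e ∈ E', w1 e + 1 := by
    have h1 : c * d = (c - 1) * d + d := by
      obtain ⟨c', rfl⟩ : ∃ c', c = c' + 1 := ⟨c - 1, by omega⟩
      simp only [Nat.add_sub_cancel]
      ring
    omega
  have hge : ∀ e ∈ E', w1 e ≤ cnt K e := by
    intro e he
    rw [memE'] at he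
    exact hKc e ⟨he.1, he.2⟩
  -- at most one element has an excess
  obtain ⟨g, hgE, hgf, hg⟩ : ∃ g ∈ M.E, g ≠ f ∧ ∀ e ∈ E', e ≠ g → cnt K e = w1 e := by
    by_cases hall : ∃ g ∈ E', cnt K g ≠ w1 g
    · obtain ⟨g, hgE', hgne⟩ := hall
      have hg1 := (memE' g).1 hgE'
      refine ⟨g, hg1.1, hg1.2, fun e he heg => ?_⟩
      by_contra hne
      have h1 : ∑ x ∈ E', w1 x + 2 ≤ ∑ x ∈ E', cnt K x := by
        have h2 : ({e, g} : Finset α) ⊆ E' := by
          intro x hx
          simp only [Finset.mem_insert, Finset.mem_singleton] at hx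
          rcases hx with rfl | rfl
          · exact he
          · exact hgE'
        rw [← Finset.sum_sdiff h2, ← Finset.sum_sdiff (f := cnt K) h2, Finset.sum_pair heg,
          Finset.sum_pair heg]
        have h3 : ∑ x ∈ E' \ {e, g}, w1 x ≤ ∑ x ∈ E' \ {e, g}, cnt K x :=
          Finset.sum_le_sum (fun x hx => hge x (Finset.mem_sdiff.1 hx).1)
        have h4 := hge e he
        have h5 := hge g hgE'
        omega
      omega
    · push Not at hall
      obtain ⟨g, hg, hgf⟩ := exists_ne_of_one_lt_ncard (s := M.E) (by omega) f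
      exact ⟨g, hg, hgf, fun e he _ => hall e he⟩
  obtain ⟨C, hC, hfC, hgC⟩ := exists_circuit_avoid h4 h3 hfE hgE hgf.symm
  have hCf : C.Finite := hfin.subset hC.subset_ground
  set Cf := hCf.toFinset with hCfd
  have hCc : (↑Cf : Set α) = C := by rw [hCfd]; simp
  have hfCf : f ∈ Cf := by rw [hCfd]; simpa using hfC
  -- even count
  have ev1 : Even (∑ e ∈ Cf, cnt K e) := by
    rw [sum_cnt, hCc]
    apply Finset.even_sum
    intro i _
    exact even_inter hv hC (hKM i)
  have ev2 : Even (∑ e ∈ Cf, (if e ∈ D1 then 1 else 0)) := by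
    rw [Finset.sum_boole, Nat.cast_id]
    have : (Cf.filter (fun e => e ∈ D1)).card = (C ∩ D1).ncard := by
      rw [← ncard_coe_finset]
      congr 1
      ext x
      simp [hCfd]
    rw [this]
    exact even_inter hv hC hD1
  have ev3 : Even (∑ e ∈ Cf, (cnt K e + (if e ∈ D1 then 1 else 0))) := by
    rw [Finset.sum_add_distrib]
    exact ev1.add ev2
  rw [← Finset.insert_erase hfCf, Finset.sum_insert (Finset.notMem_erase f Cf)] at ev3
  have k0 : cnt K f = 0 := by
    rw [cnt_eq]
    apply Finset.sum_eq_zero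
    intro i _
    rw [if_neg (hKf i)]
  rw [k0, if_pos hf] at ev3
  have k1 : ∑ e ∈ Cf.erase f, (cnt K e + (if e ∈ D1 then 1 else 0)) = ∑ _e ∈ Cf.erase f, 2 := by
    apply Finset.sum_congr rfl
    intro e he
    rw [Finset.mem_erase, hCfd, Set.Finite.mem_toFinset] at he
    have heE' : e ∈ E' := (memE' e).2 ⟨hC.subset_ground he.2, he.1⟩
    rw [hg e heE' (fun h => hgC (h ▸ he.2))]
    exact hw1v e
  rw [k1, Finset.sum_const, smul_eq_mul] at ev3
  obtain ⟨r, hr⟩ := ev3
  omega

end Pool.Agent.T6.H84.Royle
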