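import Pool.Agent.T6.H84.Royle.Bin
import Mathlib.Combinatorics.Matroid.Minor.Order

set_option autoImplicit false

/-! Binary matroids without a Fano minor have no seven point configuration. -/

namespace Pool.Agent.T6.H84.Royle

open Set Matroid H211.MC

universe u

variable {α : Type u}

/-- `N` is isomorphic to the Fano matroid `F₇`, the matroid of the seven nonzero vectors of
`GF(2) ^ 3` with linear independence. -/
def IsF7 (N : Matroid α) : Prop :=
  ∃ f : α → (Fin 3 → ZMod 2), Set.BijOn f N.E {x | x ≠ 0} ∧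
    ∀ I : Set α, I ⊆ N.E → (N.Indep I ↔ LinearIndepOn (ZMod 2) f I)

lemma isF7_of_seven {V : Type*} [AddCommGroup V] [Module (ZMod 2) V] {N : Matroid α} {u : α → V}
    (hu : RepBy (ZMod 2) N u) (h : SevenPoint N) : ∃ D : Set α, IsF7 (N ＼ D) := by
  classical
  obtain ⟨p, a₁, a₂, a₃, b₁, b₂, b₃, h12, h13, h23, hc, hp, c1, c2, c3⟩ := h
  obtain ⟨⟨p1, p2, p3⟩, hind, ⟨q1, r1⟩, ⟨q2, r2⟩, ⟨q3, r3⟩⟩ :=
    seven_distinct h12 h13 h23 hc hp c1 c2 c3
  have rel : ∀ x y z, x ≠ y → x ≠ z → y ≠ z → N.IsCircuit {x, y, z} → u z = u x + u y := by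
    intro x y z hxy hxz hyz hC
    obtain ⟨s, t, hs, ht, h⟩ := circuit_rel hu hxy hxz hyz hC
    have hs1 : s = 1 := (zmod2 s).resolve_left hs
    have ht1 : t = 1 := (zmod2 t).resolve_left ht
    rw [h, hs1, ht1, one_smul, one_smul]
  have e3 := rel _ _ _ h12 h13 h23 hc
  have f1 := rel _ _ _ p1 q1 r1 c1
  have f2 := rel _ _ _ p2 q2 r2 c2
  have f3 := rel _ _ _ p3 q3 r3 c3
  have hli : LinearIndepOn (ZMod 2) u {p, a₁, a₂} := (hu _ hind.subset_ground).1 hind
  let φ : (Fin 3 → ZMod 2) →ₗ[ZMod 2] V :=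
    { toFun := fun x => x 0 • u p + x 1 • u a₁ + x 2 • u a₂
      map_add' := by
        intro x y
        simp only [Pi.add_apply, add_smul]
        abel
      map_smul' := by
        intro c x
        simp only [Pi.smul_apply, smul_eq_mul, mul_smul, RingHom.id_apply, smul_add] }
  have hφ : ∀ x, φ x = x 0 • u p + x 1 • u a₁ + x 2 • u a₂ := fun _ => rfl
  have hker : LinearMap.ker φ = ⊥ := by
    rw [LinearMap.ker_eq_bot']
    intro x hx
    rw [hφ] at hx
    obtain ⟨h1, h2, h3⟩ := triple_indep p1 p2 h12 hli hx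
    funext i
    fin_cases i
    · exact h1
    · exact h2
    · exact h3
  have hinj : Function.Injective φ := LinearMap.ker_eq_bot.1 hker
  set f : α → (Fin 3 → ZMod 2) := fun e => Function.invFun φ (u e) with hf
  have hfe : ∀ e x, φ x = u e → f e = x := by
    intro e x hx
    rw [hf]
    simp only
    rw [← hx]
    exact Function.leftInverse_invFun hinj x
  set S : Finset α := {p, a₁, a₂, a₃, b₁, b₂, b₃} with hS
  have hSE : (↑S : Set α) ⊆ N.E := by
    intro x hx
    rw [hS] at hx
    simp only [Finset.coe_insert, Finset.coe_singleton, mem_insert_iff, mem_singleton_iff] at hx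
    rcases hx with rfl | rfl | rfl | rfl | rfl | rfl | rfl
    · exact c1.subset_ground (by simp)
    · exact c1.subset_ground (by simp)
    · exact c2.subset_ground (by simp)
    · exact c3.subset_ground (by simp)
    · exact c1.subset_ground (by simp)
    · exact c2.subset_ground (by simp)
    · exact c3.subset_ground (by simp)
  have vp : f p = ![1, 0, 0] := hfe _ _ (by rw [hφ]; simp)
  have va1 : f a₁ = ![0, 1, 0] := hfe _ _ (by rw [hφ]; simp)
  have va2 : f a₂ = ![0, 0, 1] := hfe _ _ (by rw [hφ]; simp)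
  have va3 : f a₃ = ![0, 1, 1] := hfe _ _ (by rw [hφ, e3]; simp)
  have vb1 : f b₁ = ![1, 1, 0] := hfe _ _ (by rw [hφ, f1]; simp)
  have vb2 : f b₂ = ![1, 0, 1] := hfe _ _ (by rw [hφ, f2]; simp)
  have vb3 : f b₃ = ![1, 1, 1] := hfe _ _ (by rw [hφ, f3, e3]; simp [add_assoc])
  have hφf : ∀ e ∈ S, φ (f e) = u e := by
    intro e he
    rw [hS] at he
    simp only [Finset.mem_insert, Finset.mem_singleton] at he
    rcases he with rfl | rfl | rfl | rfl | rfl | rfl | rfl
    · rw [vp, hφ]; simp
    · rw [va1, hφ]; simp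
    · rw [va2, hφ]; simp
    · rw [va3, hφ, e3]; simp
    · rw [vb1, hφ, f1]; simp
    · rw [vb2, hφ, f2]; simp
    · rw [vb3, hφ, f3, e3]; simp [add_assoc]
  have hground : (N ＼ (N.E \ ↑S)).E = ↑S := by
    rw [delete_ground]
    ext x
    simp only [mem_sdiff, Finset.mem_coe, not_and, not_not]
    exact ⟨fun h => h.2 h.1, fun h => ⟨hSE h, fun _ => h⟩⟩
  refine ⟨N.E \ ↑S, f, ?_, ?_⟩
  · rw [hground]
    have hmaps : Set.MapsTo f (↑S) {x : Fin 3 → ZMod 2 | x ≠ 0} := by
      intro e he
      rw [Finset.mem_coe, hS] at he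
      simp only [Finset.mem_insert, Finset.mem_singleton] at he
      show f e ≠ 0
      rcases he with rfl | rfl | rfl | rfl | rfl | rfl | rfl
      · rw [vp]; decide
      · rw [va1]; decide
      · rw [va2]; decide
      · rw [va3]; decide
      · rw [vb1]; decide
      · rw [vb2]; decide
      · rw [vb3]; decide
    have hsurj : Set.SurjOn f (↑S) {x : Fin 3 → ZMod 2 | x ≠ 0} := by
      intro x hx
      have hx' : x = ![x 0, x 1, x 2] := by
        funext i; fin_cases i <;> rfl
      have memS : ∀ e, e ∈ ({p, a₁, a₂, a₃, b₁, b₂, b₃} : Finset α) → f e = x → x ∈ f '' ↑S := by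
        intro e he hex
        exact ⟨e, by rw [Finset.mem_coe, hS]; exact he, hex⟩
      rcases zmod2 (x 0) with h0 | h0 <;> rcases zmod2 (x 1) with h1 | h1 <;>
        rcases zmod2 (x 2) with h2 | h2 <;> rw [h0, h1, h2] at hx'
      · exfalso
        apply hx
        rw [hx']; decide
      · exact memS a₂ (by simp) (by rw [va2, hx'])
      · exact memS a₁ (by simp) (by rw [va1, hx'])
      · exact memS a₃ (by simp) (by rw [va3, hx'])
      · exact memS p (by simp) (by rw [vp, hx'])
      · exact memS b₂ (by simp) (by rw [vb2, hx'])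
      · exact memS b₁ (by simp) (by rw [vb1, hx'])
      · exact memS b₃ (by simp) (by rw [vb3, hx'])
    refine ⟨hmaps, ?_, hsurj⟩
    set T : Finset (Fin 3 → ZMod 2) := Finset.univ.filter (fun x => x ≠ 0) with hT
    have hTc : (↑T : Set (Fin 3 → ZMod 2)) = {x | x ≠ 0} := by
      ext x; simp [hT]
    rw [← hTc] at hmaps hsurj
    apply Finset.injOn_of_surjOn_of_card_le f hmaps hsurj
    have h7 : T.card = 7 := by rw [hT]; decide
    rw [h7]
    exact (Finset.card_insert_le _ _).trans (Nat.succ_le_succ Finset.card_le_six)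
  · intro I hI
    rw [hground] at hI
    have hdel : (N ＼ (N.E \ ↑S)).Indep I ↔ N.Indep I := by
      rw [delete_indep_iff]
      refine ⟨fun h => h.1, fun h => ⟨h, ?_⟩⟩
      rw [Set.disjoint_left]
      intro x hx hx2
      exact hx2.2 (hI hx)
    rw [hdel, hu _ (hI.trans hSE)]
    have h1 : (fun x : I => u x) = fun x : I => φ (f x) := by
      funext x
      exact (hφf x (hI x.2)).symm
    unfold LinearIndepOn
    rw [h1]
    exact LinearMap.linearIndependent_iff φ (v := fun x : I => f x) hker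

lemma noSeven_of_noF7 {M : Matroid α} (hb : Representable (ZMod 2) M)
    (hF : ∀ N : Matroid α, N ≤m M → ¬ IsF7 N) : NoSeven M := by
  intro X hX hs
  obtain ⟨V, _, _, u, hu⟩ := rep_contract hb hX
  obtain ⟨D, hD⟩ := isF7_of_seven hu hs
  exact hF _ ⟨X, D, rfl⟩ hD

end Pool.Agent.T6.H84.Royle
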